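import Mathlib

/-!
# A set of positive integers with more sums than differences and more products than ratios
-/

set_option autoImplicit false

namespace Pool.Agent.Results.MP_9356de_co.BothExist

open Finset
open scoped Pointwise

/-- Conway's set, shifted by one. -/
def X₀ : Finset ℕ := {1, 3, 4, 5, 8, 12, 13, 15}

/-- The numbers whose `n` lowest digits in base `31` all lie in Conway's set and whose other
digits vanish. -/
def F : ℕ → Finset ℕ
  | 0 => {0}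
  | n + 1 => image₂ (fun x y => x + 31 * y) X₀ (F n)

theorem mem_F_succ {n f : ℕ} : f ∈ F (n + 1) ↔ ∃ x ∈ X₀, ∃ y ∈ F n, x + 31 * y = f := by
  simp only [F, mem_image₂]

theorem X₀_lt {x : ℕ} (hx : x ∈ X₀) : 0 < x ∧ x ≤ 15 := by
  revert x
  decide

theorem F_nonempty (n : ℕ) : (F n).Nonempty := by
  induction n with
  | zero => exact ⟨0, by simp [F]⟩
  | succ n ih =>
    obtain ⟨y, hy⟩ := ih
    exact ⟨1 + 31 * y, mem_F_succ.2 ⟨1, by decide, y, hy, rfl⟩⟩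

theorem F_lt {n f : ℕ} (hf : f ∈ F n) : f < 31 ^ n := by
  induction n generalizing f with
  | zero => simp [F] at hf; simp [hf]
  | succ n ih =>
    obtain ⟨x, hx, y, hy, rfl⟩ := mem_F_succ.1 hf
    have h1 := (X₀_lt hx).2
    have h2 := ih hy
    rw [pow_succ]
    omega

theorem F_mod {n f : ℕ} (hn : n ≠ 0) (hf : f ∈ F n) : ¬ 31 ∣ f := by
  obtain ⟨m, rfl⟩ := Nat.exists_eq_succ_of_ne_zero hn
  obtain ⟨x, hx, y, _, rfl⟩ := mem_F_succ.1 hf
  have h1 := X₀_lt hx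
  omega

theorem F_card (n : ℕ) : (F n).card ≤ 8 ^ n := by
  induction n with
  | zero => simp [F]
  | succ n ih =>
    calc (F (n + 1)).card ≤ X₀.card * (F n).card := card_image₂_le _ _ _
      _ ≤ 8 * 8 ^ n := Nat.mul_le_mul (by decide) ih
      _ = 8 ^ (n + 1) := by rw [pow_succ]; ring

theorem add_card (n : ℕ) : 26 ^ n ≤ (F n + F n).card := by
  induction n with
  | zero => simp [F]
  | succ n ih =>
    have hsub : image₂ (fun x y => x + 31 * y) (X₀ + X₀) (F n + F n) ⊆ F (n + 1) + F (n + 1) := by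
      intro f hf
      obtain ⟨x, hx, y, hy, rfl⟩ := mem_image₂.1 hf
      obtain ⟨x1, hx1, x2, hx2, rfl⟩ := mem_add.1 hx
      obtain ⟨y1, hy1, y2, hy2, rfl⟩ := mem_add.1 hy
      refine mem_add.2 ⟨x1 + 31 * y1, mem_F_succ.2 ⟨x1, hx1, y1, hy1, rfl⟩,
        x2 + 31 * y2, mem_F_succ.2 ⟨x2, hx2, y2, hy2, rfl⟩, by ring⟩
    have hlt : ∀ x ∈ X₀ + X₀, x < 31 := by decide
    have hcard : (image₂ (fun x y => x + 31 * y) (X₀ + X₀) (F n + F n)).card =
        (X₀ + X₀).card * (F n + F n).card := by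
      rw [← card_product, ← image_uncurry_product]
      refine card_image_of_injOn ?_
      rintro ⟨x, y⟩ h1 ⟨x', y'⟩ h2 h
      rw [coe_product] at h1 h2
      have hx := hlt x h1.1
      have hx' := hlt x' h2.1
      simp only [Function.uncurry_apply_pair] at h
      have h3 : x = x' := by omega
      have h4 : y = y' := by omega
      rw [h3, h4]
    calc 26 ^ (n + 1) = 26 * 26 ^ n := by rw [pow_succ]; ring
      _ ≤ (X₀ + X₀).card * (F n + F n).card := Nat.mul_le_mul (by decide) ih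
      _ = _ := hcard.symm
      _ ≤ _ := card_le_card hsub

/-- The image of a set of natural numbers in `ℤ`. -/
abbrev toZ (A : Finset ℕ) : Finset ℤ := A.image (fun n : ℕ => (n : ℤ))

theorem mem_toZ {A : Finset ℕ} {z : ℤ} : z ∈ toZ A ↔ ∃ a ∈ A, (a : ℤ) = z := mem_image

theorem sub_card (n : ℕ) : (toZ (F n) - toZ (F n)).card ≤ 25 ^ n := by
  induction n with
  | zero => simp [F, toZ]
  | succ n ih =>
    have hsub : toZ (F (n + 1)) - toZ (F (n + 1)) ⊆
        image₂ (fun x y => x + 31 * y) (toZ X₀ - toZ X₀) (toZ (F n) - toZ (F n)) := by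
      intro f hf
      obtain ⟨a, ha, b, hb, rfl⟩ := mem_sub.1 hf
      obtain ⟨a, ha1, rfl⟩ := mem_toZ.1 ha
      obtain ⟨b, hb1, rfl⟩ := mem_toZ.1 hb
      obtain ⟨x, hx, y, hy, rfl⟩ := mem_F_succ.1 ha1
      obtain ⟨x', hx', y', hy', rfl⟩ := mem_F_succ.1 hb1
      refine mem_image₂.2 ⟨(x : ℤ) - x', sub_mem_sub (mem_toZ.2 ⟨x, hx, rfl⟩)
        (mem_toZ.2 ⟨x', hx', rfl⟩), (y : ℤ) - y', sub_mem_sub (mem_toZ.2 ⟨y, hy, rfl⟩)
        (mem_toZ.2 ⟨y', hy', rfl⟩), by push_cast; ring⟩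
    calc _ ≤ _ := card_le_card hsub
      _ ≤ (toZ X₀ - toZ X₀).card * (toZ (F n) - toZ (F n)).card := card_image₂_le _ _ _
      _ ≤ 25 * 25 ^ n := Nat.mul_le_mul (by decide) ih
      _ = 25 ^ (n + 1) := by rw [pow_succ]; ring

theorem split {a b f : ℕ} (hf : f ∈ F (a + b)) : ∃ x ∈ F a, ∃ y ∈ F b, f = x + 31 ^ a * y := by
  induction a generalizing f with
  | zero => exact ⟨0, by simp [F], f, by simpa using hf, by simp⟩
  | succ a ih =>
    rw [show a + 1 + b = a + b + 1 by ring] at hf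
    obtain ⟨x, hx, y, hy, rfl⟩ := mem_F_succ.1 hf
    obtain ⟨u, hu, v, hv, rfl⟩ := ih hy
    exact ⟨x + 31 * u, mem_F_succ.2 ⟨x, hx, u, hu, rfl⟩, v, hv, by rw [pow_succ]; ring⟩

/-- The set of the construction. -/
def A (S : Finset ℕ) (D : ℕ) : Finset ℕ :=
  image₂ (fun s f => 31 ^ s * (31 ^ (2 * D) + f)) S (F D)

theorem mem_A {S : Finset ℕ} {D a : ℕ} :
    a ∈ A S D ↔ ∃ s ∈ S, ∃ f ∈ F D, 31 ^ s * (31 ^ (2 * D) + f) = a := by
  simp only [A, mem_image₂]

/-! ### Sums and differences -/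

theorem A_add {S : Finset ℕ} (hS : S.Nonempty) (D : ℕ) : 26 ^ D ≤ (A S D + A S D).card := by
  obtain ⟨s, hs⟩ := hS
  have hsub : (F D + F D).image (fun n => 31 ^ s * (2 * 31 ^ (2 * D) + n)) ⊆ A S D + A S D := by
    intro n hn
    obtain ⟨m, hm, rfl⟩ := mem_image.1 hn
    obtain ⟨f, hf, g, hg, rfl⟩ := mem_add.1 hm
    exact mem_add.2 ⟨_, mem_A.2 ⟨s, hs, f, hf, rfl⟩, _, mem_A.2 ⟨s, hs, g, hg, rfl⟩, by ring⟩
  have hcard : ((F D + F D).image (fun n => 31 ^ s * (2 * 31 ^ (2 * D) + n))).card =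
      (F D + F D).card := by
    refine card_image_of_injective _ ?_
    intro a b hab
    have h1 : 2 * 31 ^ (2 * D) + a = 2 * 31 ^ (2 * D) + b :=
      Nat.eq_of_mul_eq_mul_left (by positivity) hab
    omega
  calc 26 ^ D ≤ _ := add_card D
    _ = _ := hcard.symm
    _ ≤ _ := card_le_card hsub

theorem A_sub {S : Finset ℕ} {L : ℕ} (hL : ∀ s ∈ S, s ≤ L) (m : ℕ) :
    (toZ (A S (L + m)) - toZ (A S (L + m))).card ≤ S.card ^ 2 * (8 ^ (2 * L) * 25 ^ m) := by
  set D := L + m with hD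
  -- the map describing all differences for fixed exponents
  let g : ℕ → ℕ → ((ℕ × ℕ) × (ℕ × ℕ)) × ℤ → ℤ := fun s s' p =>
    31 ^ s * (31 ^ (2 * D) + (p.1.1.1 : ℤ)) + 31 ^ D * (p.1.1.2 : ℤ) -
      (31 ^ s' * (31 ^ (2 * D) + (p.1.2.1 : ℤ)) + 31 ^ D * (p.1.2.2 : ℤ)) + 31 ^ L * p.2
  have hsub : toZ (A S D) - toZ (A S D) ⊆ (S ×ˢ S).biUnion (fun q =>
      (((F (L - q.1) ×ˢ F q.1) ×ˢ (F (L - q.2) ×ˢ F q.2)) ×ˢ (toZ (F m) - toZ (F m))).image
        (g q.1 q.2)) := by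
    intro d hd
    obtain ⟨a, ha, b, hb, rfl⟩ := mem_sub.1 hd
    obtain ⟨a, ha1, rfl⟩ := mem_toZ.1 ha
    obtain ⟨b, hb1, rfl⟩ := mem_toZ.1 hb
    obtain ⟨s, hs, f, hf, rfl⟩ := mem_A.1 ha1
    obtain ⟨s', hs', f', hf', rfl⟩ := mem_A.1 hb1
    have key : ∀ s ∈ S, ∀ f ∈ F D, ∃ x ∈ F (L - s), ∃ w ∈ F s, ∃ y ∈ F m,
        31 ^ s * (31 ^ (2 * D) + f) = 31 ^ s * (31 ^ (2 * D) + x) + 31 ^ D * w + 31 ^ L * y := by
      intro s hs f hf
      have h1 := hL s hs
      rw [show D = (L - s) + (m + s) by omega] at hf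
      obtain ⟨x, hx, v, hv, rfl⟩ := split hf
      obtain ⟨y, hy, w, hw, rfl⟩ := split hv
      refine ⟨x, hx, w, hw, y, hy, ?_⟩
      have h2 : (31 : ℕ) ^ L = 31 ^ s * 31 ^ (L - s) := by rw [← pow_add]; congr 1; omega
      have h3 : (31 : ℕ) ^ D = 31 ^ s * 31 ^ (L - s) * 31 ^ m := by
        rw [← h2, ← pow_add]
      rw [h2, h3]
      ring
    obtain ⟨x, hx, w, hw, y, hy, h1⟩ := key s hs f hf
    obtain ⟨x', hx', w', hw', y', hy', h2⟩ := key s' hs' f' hf'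
    rw [mem_biUnion]
    refine ⟨(s, s'), mem_product.2 ⟨hs, hs'⟩, mem_image.2 ⟨(((x, w), (x', w')), (y : ℤ) - y'),
      ?_, ?_⟩⟩
    · simp only [mem_product]
      exact ⟨⟨⟨hx, hw⟩, ⟨hx', hw'⟩⟩, sub_mem_sub (mem_toZ.2 ⟨y, hy, rfl⟩)
        (mem_toZ.2 ⟨y', hy', rfl⟩)⟩
    · rw [h1, h2]
      simp only [g]
      push_cast
      ring
  calc _ ≤ _ := card_le_card hsub
    _ ≤ (S ×ˢ S).card * (8 ^ (2 * L) * 25 ^ m) := by
        refine card_biUnion_le_card_mul _ _ _ ?_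
        rintro ⟨s, s'⟩ hq
        obtain ⟨hs, hs'⟩ := mem_product.1 hq
        refine card_image_le.trans ?_
        rw [card_product, card_product, card_product, card_product]
        refine Nat.mul_le_mul ?_ (sub_card m)
        have e : ∀ s ∈ S, (F (L - s)).card * (F s).card ≤ 8 ^ L := by
          intro s hs
          calc _ ≤ 8 ^ (L - s) * 8 ^ s := Nat.mul_le_mul (F_card _) (F_card _)
            _ = 8 ^ L := by rw [← pow_add]; congr 1; have := hL s hs; omega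
        calc _ ≤ 8 ^ L * 8 ^ L := Nat.mul_le_mul (e s hs) (e s' hs')
          _ = 8 ^ (2 * L) := by rw [← pow_add]; congr 1; omega
    _ = _ := by rw [card_product, sq]

/-! ### Products and ratios -/

/-- The image of a set of natural numbers in `ℚ`. -/
abbrev toQ (A : Finset ℕ) : Finset ℚ := A.image (fun n : ℕ => (n : ℚ))

theorem mem_toQ {A : Finset ℕ} {z : ℚ} : z ∈ toQ A ↔ ∃ a ∈ A, (a : ℚ) = z := mem_image

theorem A_div (S : Finset ℕ) (D : ℕ) :
    (toQ (A S D) / toQ (A S D)).card ≤ (toZ S - toZ S).card * (F D).card ^ 2 := by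
  have hsub : toQ (A S D) / toQ (A S D) ⊆ ((toZ S - toZ S) ×ˢ (F D ×ˢ F D)).image
      (fun p => (31 : ℚ) ^ p.1 * ((31 ^ (2 * D) + p.2.1) / (31 ^ (2 * D) + p.2.2))) := by
    intro r hr
    obtain ⟨a, ha, b, hb, rfl⟩ := mem_div.1 hr
    obtain ⟨a, ha1, rfl⟩ := mem_toQ.1 ha
    obtain ⟨b, hb1, rfl⟩ := mem_toQ.1 hb
    obtain ⟨s, hs, f, hf, rfl⟩ := mem_A.1 ha1
    obtain ⟨s', hs', f', hf', rfl⟩ := mem_A.1 hb1
    refine mem_image.2 ⟨((s : ℤ) - s', (f, f')), mem_product.2 ⟨sub_mem_sub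
      (mem_toZ.2 ⟨s, hs, rfl⟩) (mem_toZ.2 ⟨s', hs', rfl⟩), mem_product.2 ⟨hf, hf'⟩⟩, ?_⟩
    rw [zpow_sub₀ (by norm_num), zpow_natCast, zpow_natCast]
    push_cast
    rw [div_mul_div_comm]
  calc _ ≤ _ := card_le_card hsub
    _ ≤ _ := card_image_le
    _ = _ := by rw [card_product, card_product, sq]

theorem two_products {z f g f' g' : ℕ} (h1 : f * g < z) (h2 : f' * g' < z)
    (h : (z + f) * (z + g) = (z + f') * (z + g')) :
    (f' = f ∧ g' = g) ∨ (f' = g ∧ g' = f) := by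
  have h3 : (z : ℤ) * (((f : ℤ) + g) - (f' + g')) = f' * g' - f * g := by
    have : ((z : ℤ) + f) * (z + g) = (z + f') * (z + g') := by exact_mod_cast h
    linarith
  have h1' : (f : ℤ) * g < z := by exact_mod_cast h1
  have h2' : (f' : ℤ) * g' < z := by exact_mod_cast h2
  have h0 : (0 : ℤ) ≤ f * g := by positivity
  have h0' : (0 : ℤ) ≤ f' * g' := by positivity
  have h4 : ((f : ℤ) + g) - (f' + g') = 0 := by
    by_contra hne
    rcases lt_or_gt_of_ne hne with hlt | hgt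
    · nlinarith
    · nlinarith
  have h5 : (f' : ℤ) * g' = f * g := by
    rw [h4] at h3
    linarith
  have h6 : ((f' : ℤ) - f) * (f' - g) = 0 := by
    have h7 : (g : ℤ) = f' + g' - f := by linarith
    rw [h7] at h5 ⊢
    linarith [h5, mul_comm (f' : ℤ) f]
  rcases mul_eq_zero.1 h6 with h8 | h8
  · left
    have : (f' : ℤ) = f := by linarith
    have h9 : (g' : ℤ) = g := by linarith
    exact ⟨by exact_mod_cast this, by exact_mod_cast h9⟩
  · right
    have : (f' : ℤ) = g := by linarith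
    have h9 : (g' : ℤ) = f := by linarith
    exact ⟨by exact_mod_cast this, by exact_mod_cast h9⟩

theorem val_eq {n n' u u' : ℕ} (hu : ¬ 31 ∣ u) (hu' : ¬ 31 ∣ u')
    (h : 31 ^ n * u = 31 ^ n' * u') : n = n' ∧ u = u' := by
  have key : ∀ n n' u u' : ℕ, ¬ 31 ∣ u → 31 ^ n * u = 31 ^ n' * u' → n' ≤ n := by
    intro n n' u u' hu h
    by_contra hlt
    push Not at hlt
    obtain ⟨d, rfl⟩ : ∃ d, n' = n + (d + 1) := ⟨n' - n - 1, by omega⟩
    rw [pow_add, mul_assoc] at h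
    have h1 := Nat.eq_of_mul_eq_mul_left (by positivity) h
    apply hu
    rw [h1, pow_succ]
    exact ⟨31 ^ d * u', by ring⟩
  have h1 := key n n' u u' hu h
  have h2 := key n' n u' u hu' h.symm
  have h3 : n = n' := le_antisymm h2 h1
  subst h3
  exact ⟨rfl, Nat.eq_of_mul_eq_mul_left (by positivity) h⟩

theorem A_mul (S : Finset ℕ) {D : ℕ} (hD : D ≠ 0) :
    (S + S).card * (F D).card ^ 2 ≤ 2 * (A S D * A S D).card := by
  set z := 31 ^ (2 * D) with hz
  let φ : ℕ × (ℕ × ℕ) → ℕ := fun p => 31 ^ p.1 * ((z + p.2.1) * (z + p.2.2))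
  have hprime : Nat.Prime 31 := by norm_num
  have hz31 : 31 ∣ z := dvd_pow_self 31 (by omega)
  have hnd : ∀ f ∈ F D, ¬ 31 ∣ z + f := fun f hf h => F_mod hD hf ((Nat.dvd_add_right hz31).1 h)
  have hlt : ∀ f ∈ F D, ∀ g ∈ F D, f * g < z := by
    intro f hf g hg
    have h1 := F_lt hf
    have h2 := F_lt hg
    calc f * g < 31 ^ D * 31 ^ D := Nat.mul_lt_mul'' h1 h2
      _ = z := by rw [hz, ← pow_add]; congr 1; omega
  have hsub : ((S + S) ×ˢ (F D ×ˢ F D)).image φ ⊆ A S D * A S D := by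
    intro n hn
    obtain ⟨⟨k, f, g⟩, hp, rfl⟩ := mem_image.1 hn
    simp only [mem_product] at hp
    obtain ⟨hk, hf, hg⟩ := hp
    obtain ⟨s, hs, s', hs', rfl⟩ := mem_add.1 hk
    refine mem_mul.2 ⟨_, mem_A.2 ⟨s, hs, f, hf, rfl⟩, _, mem_A.2 ⟨s', hs', g, hg, rfl⟩, ?_⟩
    simp only [φ]
    rw [pow_add]
    ring
  have hfib : ((S + S) ×ˢ (F D ×ˢ F D)).card ≤
      2 * (((S + S) ×ˢ (F D ×ˢ F D)).image φ).card := by
    refine card_le_mul_card_image _ 2 ?_
    intro b hb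
    obtain ⟨⟨k, f, g⟩, hp, rfl⟩ := mem_image.1 hb
    simp only [mem_product] at hp
    obtain ⟨_, hf, hg⟩ := hp
    have h1 : {x ∈ (S + S) ×ˢ (F D ×ˢ F D) | φ x = φ (k, f, g)} ⊆ {(k, f, g), (k, g, f)} := by
      rintro ⟨k', f', g'⟩ hx
      simp only [mem_filter, mem_product] at hx
      obtain ⟨⟨_, hf', hg'⟩, hφ⟩ := hx
      simp only [φ] at hφ
      have hdvd : ∀ f ∈ F D, ∀ g ∈ F D, ¬ 31 ∣ (z + f) * (z + g) := by
        intro f hf g hg h
        rcases hprime.dvd_mul.1 h with h | h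
        · exact hnd f hf h
        · exact hnd g hg h
      obtain ⟨h2, h3⟩ := val_eq (hdvd f' hf' g' hg') (hdvd f hf g hg) hφ
      rcases two_products (hlt f hf g hg) (hlt f' hf' g' hg') h3.symm with ⟨h4, h5⟩ | ⟨h4, h5⟩
      · rw [h2, h4, h5]; simp
      · rw [h2, h4, h5]; simp
    exact (card_le_card h1).trans card_le_two
  calc (S + S).card * (F D).card ^ 2 = ((S + S) ×ˢ (F D ×ˢ F D)).card := by
        rw [card_product, card_product, sq]
    _ ≤ _ := hfib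
    _ ≤ _ := Nat.mul_le_mul_left 2 (card_le_card hsub)

/-- **There is a finite nonempty set of positive integers which has more sums than differences
and more products than ratios.** -/
theorem result : ∃ A : Finset ℕ, A.Nonempty ∧ (∀ a ∈ A, 0 < a) ∧
    (A.image (fun n : ℕ => (n : ℤ)) - A.image (fun n : ℕ => (n : ℤ))).card < (A + A).card ∧
    (A.image (fun n : ℕ => (n : ℚ)) / A.image (fun n : ℕ => (n : ℚ))).card < (A * A).card := by
  obtain ⟨S, hSne, h3, h4⟩ : ∃ S : Finset ℕ, S.Nonempty ∧ 26 ^ 18 ≤ (S + S).card ∧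
      (toZ S - toZ S).card ≤ 25 ^ 18 := ⟨F 18, F_nonempty 18, add_card 18, sub_card 18⟩
  obtain ⟨L, hL0, hL⟩ : ∃ L : ℕ, 0 < L ∧ ∀ s ∈ S, s ≤ L :=
    ⟨S.sup id + 1, Nat.succ_pos _, fun s hs => (Finset.le_sup (f := id) hs).trans (Nat.le_succ _)⟩
  -- choice of the number of digits
  obtain ⟨m, hm⟩ : ∃ m : ℕ, S.card ^ 2 * (8 ^ (2 * L) * 25 ^ m) < 26 ^ (L + m) := by
    obtain ⟨m, hm⟩ := pow_unbounded_of_one_lt ((S.card ^ 2 * 8 ^ (2 * L) : ℕ) : ℝ)
      (show (1 : ℝ) < 26 / 25 by norm_num)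
    refine ⟨m, ?_⟩
    have h1 : ((S.card ^ 2 * 8 ^ (2 * L) : ℕ) : ℝ) * 25 ^ m < 26 ^ m := by
      rw [div_pow, lt_div_iff₀ (by positivity)] at hm
      exact hm
    have h2 : (S.card ^ 2 * 8 ^ (2 * L)) * 25 ^ m < 26 ^ m := by exact_mod_cast h1
    calc S.card ^ 2 * (8 ^ (2 * L) * 25 ^ m) = (S.card ^ 2 * 8 ^ (2 * L)) * 25 ^ m := by ring
      _ < 26 ^ m := h2
      _ ≤ 26 ^ (L + m) := Nat.pow_le_pow_right (by norm_num) (by omega)
  have hD : L + m ≠ 0 := by omega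
  refine ⟨A S (L + m), ?_, ?_, ?_, ?_⟩
  · exact hSne.image₂ (F_nonempty _)
  · intro a ha
    obtain ⟨s, _, f, _, rfl⟩ := mem_A.1 ha
    positivity
  · calc _ ≤ _ := A_sub hL m
      _ < _ := hm
      _ ≤ _ := A_add hSne _
  · have h1 := A_div S (L + m)
    have h2 := A_mul S hD
    have h5 : 0 < (F (L + m)).card := (F_nonempty _).card_pos
    have h6 : 2 * ((toZ S - toZ S).card * (F (L + m)).card ^ 2) <
        (S + S).card * (F (L + m)).card ^ 2 := by
      have h7 : 2 * (toZ S - toZ S).card < (S + S).card := by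
        calc 2 * (toZ S - toZ S).card ≤ 2 * 25 ^ 18 := Nat.mul_le_mul_left 2 h4
          _ < 26 ^ 18 := by norm_num
          _ ≤ _ := h3
      calc 2 * ((toZ S - toZ S).card * (F (L + m)).card ^ 2) =
          (2 * (toZ S - toZ S).card) * (F (L + m)).card ^ 2 := by ring
        _ < _ := Nat.mul_lt_mul_of_pos_right h7 (by positivity)
    have h8 : 2 * (toQ (A S (L + m)) / toQ (A S (L + m))).card <
        2 * (A S (L + m) * A S (L + m)).card := by
      calc _ ≤ 2 * ((toZ S - toZ S).card * (F (L + m)).card ^ 2) := Nat.mul_le_mul_left 2 h1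
        _ < _ := h6
        _ ≤ _ := h2
    show (toQ (A S (L + m)) / toQ (A S (L + m))).card < _
    omega

end Pool.Agent.Results.MP_9356de_co.BothExist
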